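import Pool.Agent.Lib.helper5.Extral

namespace Pool.Agent.Results.MP_9c9ca5_gt.Metrizable

universe u

/-- `X` is t-embedded in every Tychonoff space containing it as a closed subspace -/
def TExtral (X : Type u) [TopologicalSpace X] : Prop :=
  ∀ (Z : Type u) [TopologicalSpace Z] [T35Space Z] (e : X → Z), Topology.IsClosedEmbedding e →
    ∃ φ : {f : X → ℝ // Continuous f} → {g : Z → ℝ // Continuous g},
      Continuous φ ∧ ∀ (f : {f : X → ℝ // Continuous f}) (x : X), (φ f).1 (e x) = f.1 x

theorem result (X : Type u) [TopologicalSpace X] [T35Space X] (h : TExtral X)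
    (ht : ∀ (A : Set X) (x : X), x ∈ closure A → ∃ B : Set X, B ⊆ A ∧ B.Countable ∧ x ∈ closure B) :
    TopologicalSpace.MetrizableSpace X := by
  by_contra hm
  obtain ⟨ι, hι⟩ : ∃ ι : Type, Cardinal.mk ι = Cardinal.aleph 1 := ⟨_, Cardinal.mk_out _⟩
  have := H5C.uncountable_of_aleph hι
  obtain ⟨e, he⟩ := H5C.TE.cantor h hm ι hι
  exact H5C.not_tight he ht

end Pool.Agent.Results.MP_9c9ca5_gt.Metrizable
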